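import Pool.Agent.Y624.LD.Pt

set_option autoImplicit false

/-! LD-CNT: the weighted mean number of zeros in short intervals (helper624). -/

namespace Pool.Agent.Y624.LD

open Filter Topology MeasureTheory Complex H370 Pool.Agent.Y745.SW Pool.Agent.Y745.LD

noncomputable section

theorem Py_cont (y : ℝ) : Continuous fun t : ℝ => Py y t := by
  unfold Py
  refine continuous_finsetSum _ fun p hp => ?_
  have hp0 : (p : ℂ) ≠ 0 := by
    have := (Finset.mem_filter.mp hp).2.ne_zero
    exact_mod_cast this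
  refine Continuous.const_cpow ?_ (Or.inl hp0)
  fun_prop

theorem V_cont (κ c A T : ℝ) : Continuous fun t : ℝ => V κ c A T t := by
  have h : Continuous fun t : ℝ => Pc c T t := Py_cont _
  unfold V Qk tex
  fun_prop

theorem V_nonneg (κ c A T t : ℝ) : 0 ≤ V κ c A T t := by
  unfold V
  positivity

theorem St_cont {B : ℝ → ℝ} (hB : Continuous B) (a U1 U2 u : ℝ) :
    Continuous fun t : ℝ => St B a U1 U2 u t := by
  unfold St
  refine continuous_finsetSum _ fun s _ => ?_
  exact continuous_const.mul ((vt_cont B hB a (zz s)).mul continuous_const)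

theorem t_CNT (hVSM : P_VSM) : P_CNT := by
  intro κ c hc0 hc1
  obtain ⟨A0, hA0⟩ := hVSM κ c hc0 hc1
  refine ⟨A0, fun A hA e he0 he1 => ?_⟩
  obtain ⟨C, hC1, hC⟩ := hA0 A hA (1 / 4) (by norm_num) (by norm_num)
  refine ⟨10 + 6 * C, by linarith, fun D cc C0 hD => ?_⟩
  have he2 : e < 1 := by linarith
  filter_upwards [hC cc C0, nz_le e D he0 he2 hD] with T hV hP hmeas U1 U2 hE x hx
  obtain ⟨⟨hR4, hRb1, hRb16, hL3, hT10⟩, hpt⟩ := hP
  set L := Real.log T with hLd
  have hL0 : 0 < L := by linarith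
  have hL1 : 1 ≤ L := by linarith
  have hLT : L ≤ T - 1 := Real.log_le_sub_one_of_pos (by linarith)
  have hL4 : 4 * L ≤ T := by
    by_contra hcon
    push Not at hcon
    have h1 : T = Real.exp L := (Real.exp_log (by linarith)).symm
    have h2 : L ^ 2 / 2 + L + 1 ≤ Real.exp L := by
      have := Real.quadratic_le_exp_of_nonneg hL0.le
      linarith
    have h3 : 1 + L + L ^ 2 / 2 + L ^ 3 / 6 ≤ Real.exp L := by
      have h4 := Real.sum_le_exp_of_nonneg hL0.le 4
      simp only [Finset.sum_range_succ, Finset.sum_range_zero] at h4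
      norm_num [Nat.factorial] at h4
      linarith
    nlinarith [sq_nonneg (L - 3)]
  set R : ℝ := L ^ (e / 8) with hRd
  set b : ℝ := L ^ (1 - e) with hbd
  have hR0 : 0 < R := by linarith
  have hb0 : 0 < b := Real.rpow_pos_of_pos hL0 _
  have hLe1 : 1 ≤ L ^ e := Real.one_le_rpow hL1 he0.le
  have hRe : R ≤ L ^ e := Real.rpow_le_rpow_of_exponent_le hL1 (by linarith)
  have hJ := hV U1 U2 hE (Bg R) R (R * b) 0 x (Bg_cont R) (Bg_even R) (Bg_le hR0.le) hRb1
    (by linarith) le_rfl (by positivity) hx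
  set M : ℝ := Mu (Bg R) (R * b) L 0 with hM
  have hM0 : 0 ≤ M := Mu_nonneg hR0.le hL0.le
  have hMe : M ≤ L ^ e := by
    refine (Mu_le hR0 hb0 hL0.le).trans (le_of_eq ?_)
    rw [hbd, div_eq_mul_inv, ← Real.rpow_neg hL0.le]
    nth_rw 1 [← Real.rpow_one L]
    rw [← Real.rpow_add hL0]
    congr 1
    ring
  -- the mean square
  have hsq : ((0 : ℝ) ≤ ∫ ξ in (-1:ℝ)..1, Bg R ξ ^ 2) :=
    intervalIntegral.integral_nonneg (by norm_num) fun ξ _ => by positivity
  have hfr : (R * L ^ c / (R * b)) ^ 2 ≤ 1 := by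
    have h1 : R * L ^ c / (R * b) = L ^ (c - (1 - e)) := by
      rw [Real.rpow_sub hL0, hbd]
      field_simp
    have h2 : L ^ (c - (1 - e)) ≤ 1 := Real.rpow_le_one_of_one_le_of_nonpos hL1 (by linarith)
    rw [h1]
    exact pow_le_one₀ (Real.rpow_nonneg hL0.le _) h2
  have hIV0 : 0 ≤ IV κ c A T := by
    unfold IV
    exact intervalIntegral.integral_nonneg (by linarith) fun t _ => V_nonneg κ c A T t
  have hJ2 : C * IV κ c A T * ((1 + 0 / (R * b)) * (∫ ξ in (-1:ℝ)..1, Bg R ξ ^ 2) +
      (R * L ^ c / (R * b)) ^ 2) ≤ C * IV κ c A T * (2 * L ^ e) := by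
    refine mul_le_mul_of_nonneg_left ?_ (by positivity)
    rw [zero_div, add_zero, one_mul]
    have := Bg_sq hR0
    linarith
  have hJ3 := hJ.trans hJ2
  -- the pointwise majorant
  set F : ℝ → ℂ := fun t => St (Bg R) (R * b) U1 U2 0 (t + x) -
    cexp (I * (0 : ℝ) * (t + x : ℝ)) * (M : ℝ) with hF
  have hFc : Continuous F := by
    have h1 := (St_cont (Bg_cont R) (R * b) U1 U2 0).comp (continuous_id.add (continuous_const (y := x)))
    exact h1.sub (by fun_prop)
  set g : ℝ → ℝ := fun t => V κ c A T t * ((4 + 6 * M) + 3 * ‖F t‖ ^ 2) with hg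
  have hVc := V_cont κ c A T
  have hgc : Continuous g := hVc.mul (continuous_const.add (continuous_const.mul (hFc.norm.pow 2)))
  have hg0 : ∀ t, 0 ≤ g t := fun t => mul_nonneg (V_nonneg _ _ _ _ _) (by positivity)
  have hnz0 : ∀ α β : ℝ, 0 ≤ nz U1 U2 α β := fun α β => by
    unfold nz
    exact Finset.sum_nonneg fun s _ => Nat.cast_nonneg _
  have hle : ∀ t ∈ G1 1 D T ∩ Set.Icc (T + 2 * L) (2 * T - 2 * L),
      V κ c A T t * nz U1 U2 (t + x - L ^ (e - 1)) (t + x + L ^ (e - 1)) ≤ g t := by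
    intro t ht
    refine mul_le_mul_of_nonneg_left ?_ (V_nonneg _ _ _ _ _)
    refine (hpt U1 U2 hE.h1 hE.h4 x hx t ht).trans ?_
    have h1 : (St (Bg R) (R * b) U1 U2 0 (t + x)).re = (F t).re + M := by
      rw [hF]
      simp only [Complex.ofReal_zero, mul_zero, zero_mul, Complex.exp_zero, one_mul, Complex.sub_re,
        Complex.ofReal_re]
      ring
    have h2 : (F t).re ≤ ‖F t‖ := Complex.re_le_norm _
    have h3 : 2 * ‖F t‖ ≤ 1 + ‖F t‖ ^ 2 := by nlinarith [sq_nonneg (‖F t‖ - 1)]
    rw [h1]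
    linarith
  have hint : T + 2 * L ≤ 2 * T - 2 * L := by linarith
  have hgi : IntegrableOn g (Set.Icc (T + 2 * L) (2 * T - 2 * L)) := hgc.continuousOn.integrableOn_Icc
  have hGm : MeasurableSet (G1 1 D T ∩ Set.Icc (T + 2 * L) (2 * T - 2 * L)) :=
    hmeas.inter measurableSet_Icc
  calc ∫ t in G1 1 D T ∩ Set.Icc (T + 2 * L) (2 * T - 2 * L), V κ c A T t *
        nz U1 U2 (t + x - L ^ (e - 1)) (t + x + L ^ (e - 1)) ≤
      ∫ t in G1 1 D T ∩ Set.Icc (T + 2 * L) (2 * T - 2 * L), g t := by
        refine integral_mono_of_nonneg ?_ (hgi.mono_set Set.inter_subset_right) ?_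
        · exact Eventually.of_forall fun t => mul_nonneg (V_nonneg _ _ _ _ _) (hnz0 _ _)
        · exact ae_restrict_of_forall_mem hGm hle
    _ ≤ ∫ t in Set.Icc (T + 2 * L) (2 * T - 2 * L), g t := by
        refine setIntegral_mono_set hgi ?_ (HasSubset.Subset.eventuallyLE Set.inter_subset_right)
        exact Eventually.of_forall fun t => hg0 t
    _ = ∫ t in (T + 2 * L)..(2 * T - 2 * L), g t := by
        rw [integral_Icc_eq_integral_Ioc, intervalIntegral.integral_of_le hint]
    _ = (4 + 6 * M) * (∫ t in (T + 2 * L)..(2 * T - 2 * L), V κ c A T t) +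
        3 * ∫ t in (T + 2 * L)..(2 * T - 2 * L), V κ c A T t * ‖F t‖ ^ 2 := by
        rw [← intervalIntegral.integral_const_mul, ← intervalIntegral.integral_const_mul,
          ← intervalIntegral.integral_add]
        · refine intervalIntegral.integral_congr fun t _ => ?_
          simp only [hg]
          ring
        · exact (continuous_const.mul hVc).intervalIntegrable _ _
        · exact (continuous_const.mul (hVc.mul (hFc.norm.pow 2))).intervalIntegrable _ _
    _ ≤ (4 + 6 * L ^ e) * IV κ c A T + 3 * (C * IV κ c A T * (2 * L ^ e)) := by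
        have h1 : ∫ t in (T + 2 * L)..(2 * T - 2 * L), V κ c A T t ≤ IV κ c A T := by
          unfold IV
          refine intervalIntegral.integral_mono_interval (by linarith) hint (by linarith) ?_ ?_
          · exact Eventually.of_forall fun t => V_nonneg _ _ _ _ _
          · exact hVc.intervalIntegrable _ _
        have h2 : 0 ≤ ∫ t in (T + 2 * L)..(2 * T - 2 * L), V κ c A T t :=
          intervalIntegral.integral_nonneg hint fun t _ => V_nonneg _ _ _ _ _
        have h3 : (4 + 6 * M) * (∫ t in (T + 2 * L)..(2 * T - 2 * L), V κ c A T t) ≤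
            (4 + 6 * L ^ e) * IV κ c A T := by
          apply mul_le_mul (by linarith) h1 h2 (by linarith)
        have h4 : ∫ t in (T + 2 * L)..(2 * T - 2 * L), V κ c A T t * ‖F t‖ ^ 2 ≤
            C * IV κ c A T * (2 * L ^ e) := hJ3
        linarith
    _ ≤ (10 + 6 * C) * L ^ e * IV κ c A T := by
        have h1 : IV κ c A T ≤ L ^ e * IV κ c A T := le_mul_of_one_le_left hIV0 hLe1
        nlinarith

end

end Pool.Agent.Y624.LD
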