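import Pool.Agent.Y745.SW.DefsA

set_option autoImplicit false

/-! The Gaussian window (helper624, for LD-CNT). -/

namespace Pool.Agent.Y624.LD

open Filter Topology MeasureTheory Complex Pool.Agent.Y745.SW

noncomputable section

/-- the window function -/
def Bg (R ξ : ℝ) : ℝ := R / Real.sqrt (2 * Real.pi) * Real.exp (-(R * ξ) ^ 2 / 2)

theorem Bg_cont (R : ℝ) : Continuous (Bg R) := by
  unfold Bg
  fun_prop

theorem Bg_even (R ξ : ℝ) : Bg R (-ξ) = Bg R ξ := by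
  unfold Bg
  congr 2
  ring

theorem one_le_s : 1 ≤ Real.sqrt (2 * Real.pi) := by
  rw [Real.one_le_sqrt]
  linarith [Real.pi_gt_three]

theorem Bg_nonneg {R : ℝ} (hR : 0 ≤ R) (ξ : ℝ) : 0 ≤ Bg R ξ := by
  unfold Bg
  positivity

theorem Bg_le {R : ℝ} (hR : 0 ≤ R) (ξ : ℝ) : |Bg R ξ| ≤ R := by
  rw [abs_of_nonneg (Bg_nonneg hR ξ)]
  unfold Bg
  have h1 : Real.exp (-(R * ξ) ^ 2 / 2) ≤ 1 := by
    rw [Real.exp_le_one_iff]
    nlinarith [sq_nonneg (R * ξ)]
  have h2 : R / Real.sqrt (2 * Real.pi) ≤ R := div_le_self hR one_le_s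
  calc R / Real.sqrt (2 * Real.pi) * Real.exp (-(R * ξ) ^ 2 / 2) ≤ R * 1 := by
        apply mul_le_mul h2 h1 (Real.exp_pos _).le hR
    _ = R := mul_one R

/-- nonnegative integrable functions: an interval against the line -/
theorem ii_le {f : ℝ → ℝ} (h0 : ∀ x, 0 ≤ f x) (hi : Integrable f) :
    ∫ x in (-1:ℝ)..1, f x ≤ ∫ x, f x := by
  rw [intervalIntegral.integral_of_le (by norm_num)]
  exact setIntegral_le_integral hi (Eventually.of_forall h0)

theorem Bg_sq {R : ℝ} (hR : 0 < R) : ∫ ξ in (-1:ℝ)..1, Bg R ξ ^ 2 ≤ R := by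
  have h1 : ∀ ξ, Bg R ξ ^ 2 = R ^ 2 / (2 * Real.pi) * Real.exp (-(R ^ 2) * ξ ^ 2) := by
    intro ξ
    unfold Bg
    rw [mul_pow, div_pow, Real.sq_sqrt (by positivity), ← Real.exp_nat_mul]
    congr 2
    push_cast
    ring
  simp only [h1]
  have h2 : Integrable fun ξ : ℝ => Real.exp (-(R ^ 2) * ξ ^ 2) :=
    integrable_exp_neg_mul_sq (by positivity)
  refine (ii_le (fun ξ => by positivity) (h2.const_mul _)).trans ?_
  rw [integral_const_mul, integral_gaussian]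
  have h3 : Real.sqrt (Real.pi / R ^ 2) = Real.sqrt Real.pi / R := by
    rw [Real.sqrt_div (by positivity), Real.sqrt_sq hR.le]
  rw [h3]
  have h4 : Real.sqrt Real.pi ≤ Real.pi := by
    rw [Real.sqrt_le_left (by positivity)]
    nlinarith [Real.pi_gt_three]
  calc R ^ 2 / (2 * Real.pi) * (Real.sqrt Real.pi / R) ≤ R ^ 2 / (2 * Real.pi) * (Real.pi / R) := by
        gcongr
    _ = R / 2 := by field_simp
    _ ≤ R := by linarith

theorem Mu_nonneg {R a L : ℝ} (hR : 0 ≤ R) (hL : 0 ≤ L) : 0 ≤ Mu (Bg R) a L 0 := by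
  unfold Mu
  refine mul_nonneg (by positivity) ?_
  refine intervalIntegral.integral_nonneg (by norm_num) fun ξ _ => ?_
  exact mul_nonneg (Bg_nonneg hR ξ) (Real.exp_pos _).le

theorem Mu_le {R b L : ℝ} (hR : 0 < R) (hb : 0 < b) (hL : 0 ≤ L) :
    Mu (Bg R) (R * b) L 0 ≤ L / b := by
  unfold Mu
  have h1 : ∀ ξ : ℝ, Bg R ξ * Real.exp (-(0 + ξ * (R * b)) ^ 2 / 2) =
      R / Real.sqrt (2 * Real.pi) * Real.exp (-((R ^ 2 + (R * b) ^ 2) / 2) * ξ ^ 2) := by
    intro ξ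
    unfold Bg
    rw [mul_assoc, ← Real.exp_add]
    congr 2
    ring
  simp only [h1]
  have h2 : Integrable fun ξ : ℝ => Real.exp (-((R ^ 2 + (R * b) ^ 2) / 2) * ξ ^ 2) :=
    integrable_exp_neg_mul_sq (by positivity)
  have h3 : ∫ ξ in (-1:ℝ)..1, R / Real.sqrt (2 * Real.pi) *
      Real.exp (-((R ^ 2 + (R * b) ^ 2) / 2) * ξ ^ 2) ≤ 1 / b := by
    refine (ii_le (fun ξ => by positivity) (h2.const_mul _)).trans ?_
    rw [integral_const_mul, integral_gaussian]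
    have h4 : Real.sqrt (Real.pi / ((R ^ 2 + (R * b) ^ 2) / 2)) ≤
        Real.sqrt (2 * Real.pi) / (R * b) := by
      rw [le_div_iff₀ (by positivity)]
      calc Real.sqrt (Real.pi / ((R ^ 2 + (R * b) ^ 2) / 2)) * (R * b) =
          Real.sqrt (Real.pi / ((R ^ 2 + (R * b) ^ 2) / 2)) * Real.sqrt ((R * b) ^ 2) := by
            rw [Real.sqrt_sq (by positivity)]
        _ = Real.sqrt (Real.pi / ((R ^ 2 + (R * b) ^ 2) / 2) * (R * b) ^ 2) :=
            (Real.sqrt_mul (by positivity) _).symm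
        _ ≤ Real.sqrt (2 * Real.pi) := by
            apply Real.sqrt_le_sqrt
            rw [div_mul_eq_mul_div, div_le_iff₀ (by positivity)]
            have : 0 ≤ Real.pi * R ^ 2 := by positivity
            nlinarith
    have h5 : 0 < Real.sqrt (2 * Real.pi) := by positivity
    calc R / Real.sqrt (2 * Real.pi) * Real.sqrt (Real.pi / ((R ^ 2 + (R * b) ^ 2) / 2)) ≤
        R / Real.sqrt (2 * Real.pi) * (Real.sqrt (2 * Real.pi) / (R * b)) := by gcongr
      _ = 1 / b := by field_simp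
  have h6 : L / Real.sqrt (2 * Real.pi) ≤ L := div_le_self hL one_le_s
  calc L / Real.sqrt (2 * Real.pi) * ∫ ξ in (-1:ℝ)..1, R / Real.sqrt (2 * Real.pi) *
      Real.exp (-((R ^ 2 + (R * b) ^ 2) / 2) * ξ ^ 2) ≤ L * (1 / b) := by
        apply mul_le_mul h6 h3 ?_ hL
        exact intervalIntegral.integral_nonneg (by norm_num) fun ξ _ => by positivity
    _ = L / b := by ring

/-- the Gaussian factor -/
def gf (w : ℂ) (v : ℝ) : ℂ := ((1 / Real.sqrt (2 * Real.pi) : ℝ) : ℂ) *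
  (cexp (I * w * v) * cexp (-(1 / 2) * (v : ℂ) ^ 2))

theorem gf_cont (w : ℂ) : Continuous (gf w) := by
  unfold gf
  fun_prop

theorem gf_norm (w : ℂ) (v : ℝ) : ‖gf w v‖ =
    1 / Real.sqrt (2 * Real.pi) * Real.exp (-w.im * v - v ^ 2 / 2) := by
  unfold gf
  rw [norm_mul, norm_mul, Complex.norm_exp, Complex.norm_exp, Complex.norm_real, Real.norm_eq_abs,
    abs_of_nonneg (by positivity), ← Real.exp_add]
  congr 2
  have h1 : (I * w * v).re = -w.im * v := by
    simp [Complex.mul_re, Complex.mul_im]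
  have h2 : (-(1 / 2) * (v : ℂ) ^ 2).re = - v ^ 2 / 2 := by
    have : (-(1 / 2) * (v : ℂ) ^ 2) = ((-(1 / 2) * v ^ 2 : ℝ) : ℂ) := by push_cast; ring
    rw [this, Complex.ofReal_re]
    ring
  rw [h1, h2]
  ring

theorem gf_le {w : ℂ} (hw : |w.im| ≤ 1) {v : ℝ} : ‖gf w v‖ ≤ Real.exp 2 * Real.exp (-(1 / 4) * v ^ 2) := by
  rw [gf_norm]
  have h1 : 1 / Real.sqrt (2 * Real.pi) ≤ 1 := by
    rw [div_le_one (by positivity)]
    exact one_le_s
  have h2 : -w.im * v - v ^ 2 / 2 ≤ 2 + -(1 / 4) * v ^ 2 := by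
    have h3 : -w.im * v ≤ |v| := by
      calc -w.im * v ≤ |-w.im * v| := le_abs_self _
        _ = |w.im| * |v| := by rw [abs_mul, abs_neg]
        _ ≤ 1 * |v| := by gcongr
        _ = |v| := one_mul _
    nlinarith [sq_abs v, sq_nonneg (|v| - 2)]
  calc 1 / Real.sqrt (2 * Real.pi) * Real.exp (-w.im * v - v ^ 2 / 2) ≤
      1 * Real.exp (2 + -(1 / 4) * v ^ 2) := by gcongr
    _ = Real.exp 2 * Real.exp (-(1 / 4) * v ^ 2) := by rw [one_mul, Real.exp_add]

theorem gf_integrable {w : ℂ} (hw : |w.im| ≤ 1) : Integrable (gf w) := by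
  have h1 : Integrable fun v : ℝ => Real.exp 2 * Real.exp (-(1 / 4) * v ^ 2) :=
    (integrable_exp_neg_mul_sq (by norm_num)).const_mul _
  exact h1.mono' (gf_cont w).aestronglyMeasurable (Eventually.of_forall fun v => gf_le hw)

theorem gf_integral (w : ℂ) : ∫ v : ℝ, gf w v = cexp (-w ^ 2 / 2) := by
  unfold gf
  rw [integral_const_mul]
  have h1 := fourierIntegral_gaussian (b := (1 / 2 : ℂ)) (by norm_num) w
  rw [h1]
  have h2 : ((Real.pi : ℂ) / (1 / 2)) ^ (1 / 2 : ℂ) = (Real.sqrt (2 * Real.pi) : ℝ) := by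
    rw [Real.sqrt_eq_rpow, Complex.ofReal_cpow (by positivity)]
    push_cast
    congr 1
    ring
  rw [h2, ← mul_assoc, ← Complex.ofReal_mul, one_div, inv_mul_cancel₀ (by positivity)]
  rw [Complex.ofReal_one, one_mul]
  congr 1
  ring

theorem gf_tail {R : ℝ} (hR : 4 ≤ R) {w : ℂ} (hw : |w.im| ≤ 1) {v : ℝ} (hv : v ∉ Set.Ioc (-R) R) :
    ‖gf w v‖ ≤ 1 / Real.sqrt (2 * Real.pi) * Real.exp (-R ^ 2 / 8) * Real.exp (-(1 / 8) * v ^ 2) := by
  rw [gf_norm, mul_assoc, ← Real.exp_add]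
  have h0 : R ≤ |v| := by
    by_contra hc
    push Not at hc
    rw [abs_lt] at hc
    exact hv ⟨hc.1, hc.2.le⟩
  have h3 : -w.im * v ≤ |v| := by
    calc -w.im * v ≤ |-w.im * v| := le_abs_self _
      _ = |w.im| * |v| := by rw [abs_mul, abs_neg]
      _ ≤ 1 * |v| := by gcongr
      _ = |v| := one_mul _
  have h4 : R ^ 2 ≤ v ^ 2 := by
    rw [← sq_abs v]
    nlinarith
  have h5 : 4 * |v| ≤ v ^ 2 := by
    rw [← sq_abs v]
    nlinarith
  have h6 : -w.im * v - v ^ 2 / 2 ≤ -R ^ 2 / 8 + -(1 / 8) * v ^ 2 := by nlinarith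
  gcongr

theorem VF_gauss {R : ℝ} (hR : 4 ≤ R) {w : ℂ} (hw : |w.im| ≤ 1) :
    ‖VF (Bg R) (R * w) - cexp (-w ^ 2 / 2)‖ ≤ 2 * Real.exp (-R ^ 2 / 8) := by
  have hR0 : 0 < R := by linarith
  have h1 : VF (Bg R) (R * w) = ∫ v in (-R)..R, gf w v := by
    unfold VF
    have h2 : ∀ ξ : ℝ, (Bg R ξ : ℂ) * cexp (I * ξ * (R * w)) = R • gf w (R * ξ) := by
      intro ξ
      unfold gf Bg
      rw [Complex.real_smul]
      push_cast
      have e1 : cexp (-(R * ξ : ℂ) ^ 2 / 2) = cexp (-(1 / 2) * ((R : ℂ) * ξ) ^ 2) := by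
        congr 1
        ring
      have e2 : cexp (I * ξ * (R * w)) = cexp (I * w * (R * ξ)) := by
        congr 1
        ring
      rw [e1, e2]
      ring
    simp only [h2]
    rw [intervalIntegral.integral_smul, intervalIntegral.smul_integral_comp_mul_left]
    congr 1
    · ring
    · ring
  rw [h1, intervalIntegral.integral_of_le (by linarith), ← gf_integral]
  have hi := gf_integrable hw
  have h3 := integral_add_compl (μ := volume) (measurableSet_Ioc (a := -R) (b := R)) hi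
  have h4 : (∫ v in Set.Ioc (-R) R, gf w v) - ∫ v, gf w v = -∫ v in (Set.Ioc (-R) R)ᶜ, gf w v := by
    rw [← h3]; ring
  rw [h4, norm_neg]
  have h5 : Integrable fun v : ℝ => 1 / Real.sqrt (2 * Real.pi) * Real.exp (-R ^ 2 / 8) *
      Real.exp (-(1 / 8) * v ^ 2) := (integrable_exp_neg_mul_sq (by norm_num)).const_mul _
  refine (norm_integral_le_of_norm_le (h5.restrict (s := (Set.Ioc (-R) R)ᶜ)) ?_).trans ?_
  · exact ae_restrict_of_forall_mem measurableSet_Ioc.compl fun v hv => gf_tail hR hw hv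
  · refine (setIntegral_le_integral h5 (Eventually.of_forall fun v => by positivity)).trans ?_
    rw [integral_const_mul, integral_gaussian]
    have h6 : Real.sqrt (Real.pi / (1 / 8)) = 2 * Real.sqrt (2 * Real.pi) := by
      rw [show Real.pi / (1 / 8) = 2 ^ 2 * (2 * Real.pi) by ring, Real.sqrt_mul (by norm_num),
        Real.sqrt_sq (by norm_num)]
    rw [h6]
    have h7 : 0 < Real.sqrt (2 * Real.pi) := by positivity
    apply le_of_eq
    field_simp

theorem re_eq (a t : ℝ) (z : ℂ) : ((a : ℂ) * (z - (t : ℂ))).re = a * (z.re - t) := by simp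

theorem im_eq (a t : ℝ) (z : ℂ) : ((a : ℂ) * (z - (t : ℂ))).im = a * z.im := by simp

theorem g2_re (t : ℝ) (z : ℂ) : (-(z - (t : ℂ)) ^ 2 / 2).re =
    -((z.re - t) ^ 2 - z.im ^ 2) / 2 := by
  have h : (-(z - (t : ℂ)) ^ 2 / 2) = -((z - t) * (z - t)) * ((1 / 2 : ℝ) : ℂ) := by
    push_cast
    ring
  rw [h]
  simp only [Complex.mul_re, Complex.neg_re, Complex.neg_im, Complex.mul_im, Complex.sub_re,
    Complex.sub_im, Complex.ofReal_re, Complex.ofReal_im]
  ring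

theorem g2_im (t : ℝ) (z : ℂ) : (-(z - (t : ℂ)) ^ 2 / 2).im = -((z.re - t) * z.im) := by
  have h : (-(z - (t : ℂ)) ^ 2 / 2) = -((z - t) * (z - t)) * ((1 / 2 : ℝ) : ℂ) := by
    push_cast
    ring
  rw [h]
  simp only [Complex.mul_re, Complex.neg_re, Complex.neg_im, Complex.mul_im, Complex.sub_re,
    Complex.sub_im, Complex.ofReal_re, Complex.ofReal_im]
  ring

theorem exp_half_le : Real.exp (1 / 2) ≤ 2 := by
  have h := Real.add_one_le_exp (-(1 / 2 : ℝ))
  have h1 : Real.exp (1 / 2) * Real.exp (-(1 / 2)) = 1 := by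
    rw [← Real.exp_add]; simp
  have h2 := Real.exp_pos (1 / 2)
  nlinarith

theorem exp_neg_one_ge : 1 / 3 ≤ Real.exp (-1) := by
  have h := Real.exp_one_lt_d9
  have h1 : Real.exp 1 * Real.exp (-1) = 1 := by
    rw [← Real.exp_add]; simp
  have h2 := Real.exp_pos (-1)
  nlinarith

/-- the window at a zero near the line -/
theorem vt_near {R b q0 : ℝ} (hR : 4 ≤ R) (hb : 1 ≤ b) (hq : 0 ≤ q0)
    (h1 : (1 + b ^ 2) * q0 * (R / b) ≤ 1) (h2 : (1 + b ^ 2) * q0 ^ 2 ≤ 1) {z : ℂ} (t : ℝ)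
    (hz : |z.im| ≤ q0) :
    (if |z.re - t| ≤ 1 / b then (1 / 6 : ℝ) else 0) - 8 * Real.exp (-R ^ 2 / 8) ≤
      (vt (Bg R) (R * b) t z).re := by
  have hR0 : 0 < R := by linarith
  have hb0 : 0 < b := by linarith
  have hz2 : z.im ^ 2 ≤ q0 ^ 2 := by
    rw [← sq_abs z.im]
    exact pow_le_pow_left₀ (abs_nonneg _) hz 2
  have hbq : (b * q0) ^ 2 ≤ 1 := by nlinarith [sq_nonneg q0]
  have hbz : |b * z.im| ≤ 1 := by
    rw [abs_le_one_iff_mul_self_le_one, ← sq, mul_pow]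
    calc b ^ 2 * z.im ^ 2 ≤ b ^ 2 * q0 ^ 2 := by gcongr
      _ = (b * q0) ^ 2 := by ring
      _ ≤ 1 := hbq
  have hq1 : z.im ^ 2 ≤ 1 := by nlinarith [sq_nonneg (b * z.im), sq_nonneg z.im]
  set w : ℂ := (b : ℂ) * (z - t) with hw
  have hwim : |w.im| ≤ 1 := by rw [hw, im_eq]; exact hbz
  have hVF := VF_gauss hR hwim
  set g : ℂ := cexp (-(z - (t : ℂ)) ^ 2 / 2) with hg
  have hgn : ‖g‖ ≤ 2 := by
    rw [hg, Complex.norm_exp, g2_re]
    refine le_trans ?_ exp_half_le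
    apply Real.exp_le_exp.2
    nlinarith [sq_nonneg (z.re - t)]
  have hvt : vt (Bg R) (R * b) t z = VF (Bg R) (R * w) * g := by
    unfold vt
    rw [hw, hg]
    congr 2
    push_cast
    ring
  have hd : ‖vt (Bg R) (R * b) t z - cexp (-w ^ 2 / 2) * g‖ ≤ 4 * Real.exp (-R ^ 2 / 8) := by
    rw [hvt, ← sub_mul, norm_mul]
    calc ‖VF (Bg R) (R * w) - cexp (-w ^ 2 / 2)‖ * ‖g‖ ≤ (2 * Real.exp (-R ^ 2 / 8)) * 2 := by
          gcongr
      _ = 4 * Real.exp (-R ^ 2 / 8) := by ring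
  have hre : (cexp (-w ^ 2 / 2) * g).re ≤ (vt (Bg R) (R * b) t z).re + 4 * Real.exp (-R ^ 2 / 8) := by
    have h3 := Complex.abs_re_le_norm (vt (Bg R) (R * b) t z - cexp (-w ^ 2 / 2) * g)
    rw [Complex.sub_re] at h3
    have h4 := (abs_le.1 (h3.trans hd)).1
    linarith
  have hprod : cexp (-w ^ 2 / 2) * g = cexp (((1 + b ^ 2 : ℝ) : ℂ) * (-(z - (t : ℂ)) ^ 2 / 2)) := by
    rw [hg, hw, ← Complex.exp_add]
    congr 1
    push_cast
    ring
  rw [hprod, Complex.exp_re, Complex.re_ofReal_mul, Complex.im_ofReal_mul, g2_re, g2_im] at hre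
  set E : ℝ := Real.exp ((1 + b ^ 2) * (-((z.re - t) ^ 2 - z.im ^ 2) / 2)) with hE
  set c : ℝ := Real.cos ((1 + b ^ 2) * -((z.re - t) * z.im)) with hc
  have hE0 : 0 < E := Real.exp_pos _
  have he0 : 0 < Real.exp (-R ^ 2 / 8) := Real.exp_pos _
  have hbz2 : (1 + b ^ 2) * z.im ^ 2 ≤ 1 := by
    calc (1 + b ^ 2) * z.im ^ 2 ≤ (1 + b ^ 2) * q0 ^ 2 := by gcongr
      _ ≤ 1 := h2
  by_cases hp : |z.re - t| ≤ R / b
  · -- the phase is small
    have hph : |(1 + b ^ 2) * -((z.re - t) * z.im)| ≤ 1 := by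
      rw [abs_mul, abs_neg, abs_mul, abs_of_nonneg (show (0:ℝ) ≤ 1 + b ^ 2 by positivity)]
      calc (1 + b ^ 2) * (|z.re - t| * |z.im|) ≤ (1 + b ^ 2) * ((R / b) * q0) := by gcongr
        _ = (1 + b ^ 2) * q0 * (R / b) := by ring
        _ ≤ 1 := h1
    have hcos : 1 / 2 ≤ c := by
      rw [hc]
      have h3 := Real.one_sub_sq_div_two_le_cos (x := (1 + b ^ 2) * -((z.re - t) * z.im))
      have h4 : ((1 + b ^ 2) * -((z.re - t) * z.im)) ^ 2 ≤ 1 := by
        rw [← sq_abs]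
        exact pow_le_one₀ (abs_nonneg _) hph
      linarith
    have hpos : E / 2 ≤ E * c := by nlinarith
    split_ifs with hs
    · have h3 : Real.exp (-1) ≤ E := by
        rw [hE]
        apply Real.exp_le_exp.2
        have h4 : (z.re - t) ^ 2 ≤ (1 / b) ^ 2 := by
          rw [← sq_abs (z.re - t)]
          exact pow_le_pow_left₀ (abs_nonneg _) hs 2
        have h5 : (1 + b ^ 2) * (1 / b) ^ 2 ≤ 2 := by
          rw [one_div, inv_pow, add_mul, mul_inv_cancel₀ (by positivity), one_mul]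
          have : (b ^ 2)⁻¹ ≤ 1 := inv_le_one_of_one_le₀ (by nlinarith)
          linarith
        have h6 : (1 + b ^ 2) * (z.re - t) ^ 2 ≤ 2 := by
          calc (1 + b ^ 2) * (z.re - t) ^ 2 ≤ (1 + b ^ 2) * (1 / b) ^ 2 := by gcongr
            _ ≤ 2 := h5
        have h7 : 0 ≤ (1 + b ^ 2) * z.im ^ 2 := by positivity
        nlinarith
      have h8 := exp_neg_one_ge
      nlinarith
    · nlinarith
  · push Not at hp
    have hs : ¬ |z.re - t| ≤ 1 / b := by
      push Not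
      refine lt_of_le_of_lt ?_ hp
      gcongr
      linarith
    rw [if_neg hs]
    have hE1 : E ≤ 2 * Real.exp (-R ^ 2 / 8) := by
      have h3 : (R / b) ^ 2 ≤ (z.re - t) ^ 2 := by
        rw [← sq_abs (z.re - t)]
        exact pow_le_pow_left₀ (by positivity) hp.le 2
      have h4 : R ^ 2 ≤ (1 + b ^ 2) * (z.re - t) ^ 2 := by
        calc R ^ 2 = b ^ 2 * (R / b) ^ 2 := by field_simp
          _ ≤ (1 + b ^ 2) * (z.re - t) ^ 2 := by
            apply mul_le_mul (by linarith) h3 (by positivity) (by positivity)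
      calc E ≤ Real.exp (1 / 2 + -R ^ 2 / 8) := by
            rw [hE]
            apply Real.exp_le_exp.2
            nlinarith
        _ = Real.exp (1 / 2) * Real.exp (-R ^ 2 / 8) := Real.exp_add _ _
        _ ≤ 2 * Real.exp (-R ^ 2 / 8) := by
          gcongr
          exact exp_half_le
    have hc1 : -1 ≤ c := Real.neg_one_le_cos _
    nlinarith

/-- the window at a distant zero -/
theorem vt_far {R a H : ℝ} (hR : 0 ≤ R) (ha : 0 ≤ a) (hH : 0 ≤ H) {z : ℂ} (t : ℝ)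
    (hz : |z.im| ≤ 1 / 2) (hd : H ≤ |z.re - t|) :
    ‖vt (Bg R) a t z‖ ≤ 4 * R * Real.exp (a / 2) * Real.exp (-H ^ 2 / 2) := by
  unfold vt
  rw [norm_mul]
  have h1 : ‖VF (Bg R) (a * (z - t))‖ ≤ 2 * R * Real.exp (a / 2) := by
    unfold VF
    have h2 : ∀ ξ ∈ Set.uIoc (-1:ℝ) 1, ‖(Bg R ξ : ℂ) * cexp (I * ξ * (a * (z - t)))‖ ≤
        R * Real.exp (a / 2) := by
      intro ξ hξ
      rw [Set.uIoc_of_le (by norm_num)] at hξ
      have hξ1 : |ξ| ≤ 1 := abs_le.2 ⟨hξ.1.le, hξ.2⟩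
      rw [norm_mul, Complex.norm_real, Real.norm_eq_abs, Complex.norm_exp]
      have h3 : (I * ξ * (a * (z - t))).re = -(ξ * (a * z.im)) := by
        have : (I * ξ * (a * (z - t))) = I * ((ξ : ℂ) * ((a : ℂ) * (z - t))) := by ring
        rw [this, Complex.I_mul_re, Complex.im_ofReal_mul, im_eq]
      rw [h3]
      have h4 : -(ξ * (a * z.im)) ≤ a / 2 := by
        calc -(ξ * (a * z.im)) ≤ |ξ * (a * z.im)| := neg_le_abs _
          _ = |ξ| * (a * |z.im|) := by rw [abs_mul, abs_mul, abs_of_nonneg ha]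
          _ ≤ 1 * (a * (1 / 2)) := by gcongr
          _ = a / 2 := by ring
      apply mul_le_mul (Bg_le hR ξ) (Real.exp_le_exp.2 h4) (Real.exp_pos _).le hR
    have h3 := intervalIntegral.norm_integral_le_of_norm_le_const h2
    rw [show |(1:ℝ) - -1| = 2 by norm_num] at h3
    calc _ ≤ _ := h3
      _ = 2 * R * Real.exp (a / 2) := by ring
  have h2 : ‖cexp (-(z - (t : ℂ)) ^ 2 / 2)‖ ≤ 2 * Real.exp (-H ^ 2 / 2) := by
    rw [Complex.norm_exp, g2_re]
    have h3 : H ^ 2 ≤ (z.re - t) ^ 2 := by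
      rw [← sq_abs (z.re - t)]
      exact pow_le_pow_left₀ hH hd 2
    have h4 : z.im ^ 2 ≤ 1 / 4 := by
      rw [← sq_abs z.im]
      nlinarith [abs_nonneg z.im]
    calc Real.exp (-((z.re - t) ^ 2 - z.im ^ 2) / 2) ≤ Real.exp (1 / 2 + -H ^ 2 / 2) := by
          apply Real.exp_le_exp.2
          linarith
      _ = Real.exp (1 / 2) * Real.exp (-H ^ 2 / 2) := Real.exp_add _ _
      _ ≤ 2 * Real.exp (-H ^ 2 / 2) := by
        gcongr
        exact exp_half_le
  calc ‖VF (Bg R) (a * (z - t))‖ * ‖cexp (-(z - (t : ℂ)) ^ 2 / 2)‖ ≤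
      (2 * R * Real.exp (a / 2)) * (2 * Real.exp (-H ^ 2 / 2)) := by
        apply mul_le_mul h1 h2 (norm_nonneg _) (by positivity)
    _ = 4 * R * Real.exp (a / 2) * Real.exp (-H ^ 2 / 2) := by ring

theorem VF_cont (B : ℝ → ℝ) (hB : Continuous B) : Continuous (VF B) := by
  unfold VF
  exact intervalIntegral.continuous_parametric_intervalIntegral_of_continuous' (μ := volume)
    (f := fun (z : ℂ) (ξ : ℝ) => (B ξ : ℂ) * cexp (I * ξ * z)) (by fun_prop) (-1) 1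

theorem vt_cont (B : ℝ → ℝ) (hB : Continuous B) (a : ℝ) (z : ℂ) :
    Continuous (fun t : ℝ => vt B a t z) := by
  unfold vt
  exact ((VF_cont B hB).comp (by fun_prop)).mul (by fun_prop)

end

end Pool.Agent.Y624.LD
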