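import Pool.Agent.Y745.LD.DefsB
import Pool.Agent.H370R2.DirGood
import Pool.Agent.H370R2.Count
import Pool.Agent.Y624.LD.Win

set_option autoImplicit false

/-! The number of zeros in a short interval against the local sum (helper624, for LD-CNT). -/

namespace Pool.Agent.Y624.LD

open Filter Topology MeasureTheory Complex H370 Pool.Agent.Y745.SW Pool.Agent.Y745.LD

noncomputable section

theorem NN_long : ∃ C : ℝ, 0 < C ∧ ∀ a : ℝ, 2 ≤ a → ∀ k : ℕ,
    (NN riemannZeta a (a + 2 * k) : ℝ) ≤ k * (C * Real.log (a + 2 * k + 1)) := by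
  obtain ⟨C, hC, hz⟩ := zcount good_zeta
  refine ⟨C, hC, fun a ha k => ?_⟩
  induction k with
  | zero =>
    have h1 : zset riemannZeta a (a + 2 * ((0 : ℕ) : ℝ)) = ∅ := by
      ext s
      simp only [zset, Set.mem_ofPred_eq, Set.mem_empty_iff_false, iff_false, not_and, not_le]
      intro _ _ h3 h4
      push_cast at h4
      linarith
    have h2 : NN riemannZeta a (a + 2 * ((0 : ℕ) : ℝ)) = 0 := by
      unfold NN
      rw [h1, finsum_mem_empty]
    rw [h2]
    simp
  | succ k ih =>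
    have hk : (0:ℝ) ≤ k := Nat.cast_nonneg k
    have h1 := NN_add good_zeta (a := a) (b := a + 2 * k) (c := a + 2 * ((k + 1 : ℕ) : ℝ))
      (by linarith) (by linarith) (by push_cast; linarith)
    have h2 := hz (a + 2 * k + 1) (by linarith)
    rw [show a + 2 * (k : ℝ) + 1 - 1 = a + 2 * k by ring,
      show a + 2 * (k : ℝ) + 1 + 1 = a + 2 * ((k + 1 : ℕ) : ℝ) by push_cast; ring] at h2
    rw [h1]
    push_cast at h2 ⊢
    have h3 : Real.log (a + 2 * k + 1) ≤ Real.log (a + 2 * (k + 1) + 1) :=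
      Real.log_le_log (by linarith) (by linarith)
    have h4 : (k : ℝ) * (C * Real.log (a + 2 * k + 1)) ≤
        k * (C * Real.log (a + 2 * (k + 1) + 1)) := by gcongr
    have h5 : C * Real.log (a + 2 * k + 1) ≤ C * Real.log (a + 2 * (k + 1) + 1) := by gcongr
    linarith

theorem NN_sum {U1 U2 : ℝ} (h : 1 ≤ U1) :
    (NN riemannZeta U1 U2 : ℝ) = ∑ s ∈ Zf riemannZeta U1 U2, (mult riemannZeta s : ℝ) := by
  rw [NN_eq good_zeta h]
  push_cast
  rfl

/-- the zeros within `log T` -/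
theorem near_count : ∃ C : ℝ, 0 < C ∧ ∀ᶠ T : ℝ in atTop, ∀ U1 U2 : ℝ, T ≤ U1 → ∀ t : ℝ,
    T + 2 * Real.log T ≤ t → t ≤ 2 * T - 2 * Real.log T →
    ∑ s ∈ (Zf riemannZeta U1 U2).filter (fun s => |s.im - t| ≤ Real.log T),
      (mult riemannZeta s : ℝ) ≤ C * Real.log T ^ 2 := by
  classical
  obtain ⟨C, hC, hN⟩ := NN_long
  refine ⟨4 * C, by positivity, ?_⟩
  filter_upwards [Real.tendsto_log_atTop.eventually_ge_atTop 3, eventually_ge_atTop (10:ℝ)]
    with T hL hT U1 U2 hU1 t ht1 ht2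
  set L := Real.log T with hLd
  set k : ℕ := ⌈L⌉₊ + 1 with hk
  have hk1 : L + 1 ≤ (k : ℝ) := by
    rw [hk]; push_cast
    linarith [Nat.le_ceil L]
  have hk2 : (k : ℝ) ≤ L + 2 := by
    rw [hk]; push_cast
    linarith [Nat.ceil_lt_add_one (show 0 ≤ L by linarith)]
  have hLT : L ≤ T - 1 := Real.log_le_sub_one_of_pos (by linarith)
  have h1 := hN (t - L - 1) (by linarith) k
  have h2 : ∑ s ∈ (Zf riemannZeta U1 U2).filter (fun s => |s.im - t| ≤ L),
      (mult riemannZeta s : ℝ) ≤ (NN riemannZeta (t - L - 1) (t - L - 1 + 2 * k) : ℝ) := by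
    rw [NN_sum (by linarith)]
    refine Finset.sum_le_sum_of_subset_of_nonneg ?_ fun s _ _ => Nat.cast_nonneg _
    intro s hs
    rw [Finset.mem_filter, mem_Zf good_zeta (by linarith)] at hs
    rw [mem_Zf good_zeta (by linarith)]
    obtain ⟨⟨a1, a2, a3, a4, a5⟩, a6⟩ := hs
    rw [abs_le] at a6
    exact ⟨a1, a2, by linarith, by linarith, a5⟩
  refine h2.trans (h1.trans ?_)
  have h3 : Real.log (t - L - 1 + 2 * k + 1) ≤ 2 * L := by
    calc Real.log (t - L - 1 + 2 * k + 1) ≤ Real.log (T ^ 2) := by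
          apply Real.log_le_log
          · linarith
          · nlinarith
      _ = 2 * L := by rw [Real.log_pow]; push_cast; rfl
  calc (k : ℝ) * (C * Real.log (t - L - 1 + 2 * k + 1)) ≤ (L + 2) * (C * (2 * L)) := by
        have h0 : 0 ≤ Real.log (t - L - 1 + 2 * k + 1) := Real.log_nonneg (by linarith)
        gcongr
    _ ≤ 4 * C * L ^ 2 := by nlinarith [mul_pos hC (show 0 < L by linarith)]

/-- all the zeros -/
theorem all_count : ∃ C : ℝ, 0 < C ∧ ∀ᶠ T : ℝ in atTop, ∀ U1 U2 : ℝ, T ≤ U1 → U2 ≤ 2 * T →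
    ∑ s ∈ Zf riemannZeta U1 U2, (mult riemannZeta s : ℝ) ≤ C * T ^ 2 := by
  classical
  obtain ⟨C, hC, hN⟩ := NN_long
  refine ⟨2 * C, by positivity, ?_⟩
  filter_upwards [Real.tendsto_log_atTop.eventually_ge_atTop 3, eventually_ge_atTop (10:ℝ)]
    with T hL hT U1 U2 hU1 hU2
  set L := Real.log T with hLd
  set k : ℕ := ⌈T / 2⌉₊ with hk
  have hk1 : T / 2 ≤ (k : ℝ) := Nat.le_ceil _
  have hk2 : (k : ℝ) ≤ T / 2 + 1 := (Nat.ceil_lt_add_one (by linarith)).le
  have hLT : L ≤ T - 1 := Real.log_le_sub_one_of_pos (by linarith)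
  have h1 := hN T (by linarith) k
  have h2 : ∑ s ∈ Zf riemannZeta U1 U2, (mult riemannZeta s : ℝ) ≤
      (NN riemannZeta T (T + 2 * k) : ℝ) := by
    rw [NN_sum (by linarith)]
    refine Finset.sum_le_sum_of_subset_of_nonneg ?_ fun s _ _ => Nat.cast_nonneg _
    intro s hs
    rw [mem_Zf good_zeta (by linarith)] at hs ⊢
    obtain ⟨a1, a2, a3, a4, a5⟩ := hs
    exact ⟨a1, a2, by linarith, by linarith, a5⟩
  refine h2.trans (h1.trans ?_)
  have h3 : Real.log (T + 2 * k + 1) ≤ 2 * L := by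
    calc Real.log (T + 2 * k + 1) ≤ Real.log (T ^ 2) := by
          apply Real.log_le_log
          · linarith
          · nlinarith
      _ = 2 * L := by rw [Real.log_pow]; push_cast; rfl
  have h0 : 0 ≤ Real.log (T + 2 * k + 1) := Real.log_nonneg (by linarith)
  calc (k : ℝ) * (C * Real.log (T + 2 * k + 1)) ≤ T * (C * (2 * T)) := by
        have h4 : Real.log (T + 2 * k + 1) ≤ 2 * T := by linarith
        gcongr
        linarith
    _ = 2 * C * T ^ 2 := by ring

/-- asymptotic facts about `L = log T` -/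
theorem ev_small (e D : ℝ) (he : 0 < e) (hD : 0 < D) :
    ∀ᶠ L : ℝ in atTop, 2 * D * Real.log L * L ^ (-(7 * e / 8)) ≤ 1 := by
  have h1 : (fun L : ℝ => Real.log L) =o[atTop] fun L => L ^ (7 * e / 8) :=
    isLittleO_log_rpow_atTop (by positivity)
  have h2 := h1.bound (show 0 < 1 / (2 * D) by positivity)
  filter_upwards [h2, eventually_ge_atTop (1:ℝ)] with L h3 hL
  have hL0 : 0 < L := by linarith
  have hp : 0 < L ^ (7 * e / 8) := Real.rpow_pos_of_pos hL0 _
  rw [Real.norm_eq_abs, Real.norm_eq_abs, abs_of_nonneg (Real.log_nonneg hL), abs_of_pos hp] at h3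
  rw [Real.rpow_neg hL0.le, ← div_eq_mul_inv, div_le_one hp]
  calc 2 * D * Real.log L ≤ 2 * D * (1 / (2 * D) * L ^ (7 * e / 8)) := by gcongr
    _ = L ^ (7 * e / 8) := by field_simp

theorem ev_exp (e C : ℝ) (he : 0 < e) :
    ∀ᶠ L : ℝ in atTop, 8 * Real.exp (-(L ^ (e / 8)) ^ 2 / 8) * (C * L ^ 2) ≤ 1 / 12 := by
  have h1 := tendsto_rpow_mul_exp_neg_mul_atTop_nhds_zero (8 / e) (1 / 8) (by norm_num)
  have h2 : Tendsto (fun L : ℝ => L ^ (e / 4)) atTop atTop := tendsto_rpow_atTop (by positivity)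
  have h3 := (h1.comp h2).const_mul (8 * C)
  rw [mul_zero] at h3
  have h4 := h3.eventually (eventually_le_nhds (show (0:ℝ) < 1 / 12 by norm_num))
  filter_upwards [h4, eventually_gt_atTop (0:ℝ)] with L h5 hL
  have e1 : (L ^ (e / 8)) ^ 2 = L ^ (e / 4) := by
    rw [← Real.rpow_natCast, ← Real.rpow_mul hL.le]
    congr 1
    push_cast
    ring
  have e2 : (L ^ (e / 4)) ^ (8 / e) = L ^ 2 := by
    rw [← Real.rpow_mul hL.le, show e / 4 * (8 / e) = 2 by field_simp; norm_num]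
    exact_mod_cast Real.rpow_natCast L 2
  simp only [Function.comp_apply] at h5
  rw [e2] at h5
  rw [e1]
  calc 8 * Real.exp (-L ^ (e / 4) / 8) * (C * L ^ 2) =
      8 * C * (L ^ 2 * Real.exp (-(1 / 8) * L ^ (e / 4))) := by
        rw [show -L ^ (e / 4) / 8 = -(1 / 8) * L ^ (e / 4) by ring]
        ring
    _ ≤ 1 / 12 := h5

theorem ev_far (C : ℝ) (hC : 0 < C) :
    ∀ᶠ L : ℝ in atTop, ∀ R a : ℝ, 0 ≤ R → R ≤ L → a ≤ L / 16 →
      4 * R * Real.exp (a / 2) * Real.exp (-(L - 1) ^ 2 / 2) * (C * Real.exp L ^ 2) ≤ 1 / 12 := by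
  have h1 := tendsto_rpow_mul_exp_neg_mul_atTop_nhds_zero 1 1 (by norm_num)
  have h3 := h1.const_mul (4 * C)
  rw [mul_zero] at h3
  have h4 := h3.eventually (eventually_le_nhds (show (0:ℝ) < 1 / 12 by norm_num))
  filter_upwards [h4, eventually_ge_atTop (12:ℝ)] with L h5 hL R a hR0 hR ha
  rw [Real.rpow_one] at h5
  have e1 : Real.exp (a / 2) * Real.exp (-(L - 1) ^ 2 / 2) * Real.exp L ^ 2 ≤ Real.exp (-1 * L) := by
    rw [← Real.exp_nat_mul, ← Real.exp_add, ← Real.exp_add]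
    apply Real.exp_le_exp.2
    push_cast
    nlinarith
  calc 4 * R * Real.exp (a / 2) * Real.exp (-(L - 1) ^ 2 / 2) * (C * Real.exp L ^ 2) =
      4 * C * (R * (Real.exp (a / 2) * Real.exp (-(L - 1) ^ 2 / 2) * Real.exp L ^ 2)) := by ring
    _ ≤ 4 * C * (L * Real.exp (-1 * L)) := by
      have : 0 ≤ L := by linarith
      gcongr
    _ ≤ 1 / 12 := h5

/-- the local sum with the Gaussian window bounds the number of zeros -/
theorem nz_le (e D : ℝ) (he : 0 < e) (he1 : e < 1) (hD : 0 < D) :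
    ∀ᶠ T : ℝ in atTop, (4 ≤ Real.log T ^ (e / 8) ∧ 1 ≤ Real.log T ^ (e / 8) * Real.log T ^ (1 - e) ∧
      Real.log T ^ (e / 8) * Real.log T ^ (1 - e) ≤ Real.log T / 16 ∧ 3 ≤ Real.log T ∧ 10 ≤ T) ∧
    ∀ U1 U2 : ℝ, T ≤ U1 → U2 ≤ 2 * T → ∀ x : ℝ, |x| ≤ 1 →
    ∀ t ∈ G1 1 D T ∩ Set.Icc (T + 2 * Real.log T) (2 * T - 2 * Real.log T),
      nz U1 U2 (t + x - Real.log T ^ (e - 1)) (t + x + Real.log T ^ (e - 1)) ≤
        6 * (St (Bg (Real.log T ^ (e / 8))) (Real.log T ^ (e / 8) * Real.log T ^ (1 - e))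
          U1 U2 0 (t + x)).re + 1 := by
  classical
  obtain ⟨C1, hC1, hn⟩ := near_count
  obtain ⟨C2, hC2, ha⟩ := all_count
  have t1 := Real.tendsto_log_atTop
  have f1 := t1.eventually_ge_atTop (12:ℝ)
  have f2 := t1.eventually ((tendsto_rpow_atTop (show 0 < e / 8 by positivity)).eventually_ge_atTop
    (4:ℝ))
  have f4 := t1.eventually (ev_small e D he hD)
  have f5 := t1.eventually (ev_exp e C1 he)
  have f6 := t1.eventually (ev_far C2 hC2)
  have f7 := t1.eventually ((tendsto_rpow_atTop (show 0 < 7 * e / 8 by positivity)).eventually_ge_atTop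
    (16:ℝ))
  filter_upwards [hn, ha, f1, f2, f4, f5, f6, f7, eventually_ge_atTop (10:ℝ)]
    with T hn ha hL12 hR4 h4 h5 h6 h7 hT
  set L := Real.log T with hLd
  have hL0 : 0 < L := by linarith
  have hL1 : 1 ≤ L := by linarith
  set R : ℝ := L ^ (e / 8) with hRd
  set b : ℝ := L ^ (1 - e) with hbd
  have hb1 : 1 ≤ b := Real.one_le_rpow hL1 (by linarith)
  have hb0 : 0 < b := by linarith
  have hR0 : 0 < R := by linarith
  have hRb : R * b = L * L ^ (-(7 * e / 8)) := by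
    rw [hRd, hbd, ← Real.rpow_add hL0]
    nth_rw 2 [← Real.rpow_one L]
    rw [← Real.rpow_add hL0]
    congr 1
    ring
  have hRL : R ≤ L := by
    calc R ≤ L ^ (1:ℝ) := Real.rpow_le_rpow_of_exponent_le hL1 (by linarith)
      _ = L := Real.rpow_one L
  have hRb16 : R * b ≤ L / 16 := by
    rw [hRb, Real.rpow_neg hL0.le]
    calc L * (L ^ (7 * e / 8))⁻¹ ≤ L * (16 : ℝ)⁻¹ := by gcongr
      _ = L / 16 := by ring
  have hbinv : L ^ (e - 1) = 1 / b := by
    rw [hbd, one_div, ← Real.rpow_neg hL0.le]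
    congr 1
    ring
  refine ⟨⟨hR4, by nlinarith, hRb16, by linarith, hT⟩, ?_⟩
  intro U1 U2 hU1 hU2 x hx t ht
  obtain ⟨htG, ht1, ht2⟩ := ht
  have hU1' : 1 ≤ U1 := by linarith
  have hx1 := abs_le.1 hx
  set q0 : ℝ := D * LL T / L with hq0
  have hLL : 0 ≤ LL T := Real.log_nonneg hL1
  have hq0' : 0 ≤ q0 := by positivity
  -- the phases are small
  have hsm : 2 * b * q0 * R ≤ 1 := by
    have : 2 * b * q0 * R = 2 * D * Real.log L * L ^ (-(7 * e / 8)) := by
      calc 2 * b * q0 * R = 2 * D * Real.log L * ((R * b) / L) := by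
            rw [hq0]
            unfold LL
            rw [← hLd]
            ring
        _ = 2 * D * Real.log L * L ^ (-(7 * e / 8)) := by
            rw [hRb, mul_div_assoc, mul_comm L, div_mul_cancel₀ _ hL0.ne']
    rw [this]
    exact h4
  have hbb : (1 + b ^ 2) / b ≤ 2 * b := by
    rw [div_le_iff₀ hb0]
    nlinarith
  have hc1 : (1 + b ^ 2) * q0 * (R / b) ≤ 1 := by
    calc (1 + b ^ 2) * q0 * (R / b) = ((1 + b ^ 2) / b) * (q0 * R) := by ring
      _ ≤ (2 * b) * (q0 * R) := by gcongr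
      _ = 2 * b * q0 * R := by ring
      _ ≤ 1 := hsm
  have hbq : b * q0 ≤ 1 / 8 := by
    have : 0 ≤ b * q0 := by positivity
    nlinarith
  have hc2 : (1 + b ^ 2) * q0 ^ 2 ≤ 1 := by
    have h0 : 0 ≤ b * q0 := by positivity
    have : q0 ≤ b * q0 := by nlinarith
    nlinarith
  set δ : ℝ := 8 * Real.exp (-R ^ 2 / 8) with hδ
  set η : ℝ := 4 * R * Real.exp ((R * b) / 2) * Real.exp (-(L - 1) ^ 2 / 2) with hη
  have hδ0 : 0 ≤ δ := by positivity
  have hη0 : 0 ≤ η := by positivity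
  -- termwise
  have hterm : ∀ s ∈ Zf riemannZeta U1 U2,
      (mult riemannZeta s : ℝ) * ((if t + x - 1 / b ≤ s.im ∧ s.im ≤ t + x + 1 / b then (1 / 6 : ℝ) else 0) -
        (if |s.im - t| ≤ L then δ else 0) - η) ≤
      (mult riemannZeta s : ℝ) * (vt (Bg R) (R * b) (t + x) (zz s)).re := by
    intro s hs
    rw [mem_Zf good_zeta hU1'] at hs
    obtain ⟨a1, a2, a3, a4, a5⟩ := hs
    refine mul_le_mul_of_nonneg_left ?_ (Nat.cast_nonneg _)
    by_cases hs : |s.im - t| ≤ L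
    · have hq : |(zz s).im| ≤ q0 := by
        rw [zz_im, abs_neg]
        exact htG s a5 a1 a2 (by rw [one_mul]; exact hs)
      have h8 := vt_near hR4 hb1 hq0' hc1 hc2 (t + x) hq
      rw [zz_re] at h8
      rw [if_pos hs]
      have h9 : (if t + x - 1 / b ≤ s.im ∧ s.im ≤ t + x + 1 / b then (1 / 6 : ℝ) else 0) =
          if |s.im - (t + x)| ≤ 1 / b then (1 / 6 : ℝ) else 0 := by
        refine if_congr ?_ rfl rfl
        rw [abs_le]
        constructor
        · rintro ⟨u, v⟩; constructor <;> linarith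
        · rintro ⟨u, v⟩; constructor <;> linarith
      rw [h9]
      linarith
    · rw [if_neg hs]
      push Not at hs
      have h8 : L - 1 ≤ |(zz s).re - (t + x)| := by
        rw [zz_re]
        have h10 : |s.im - t| ≤ |s.im - (t + x)| + |x| := by
          have := abs_add_le (s.im - (t + x)) x
          rwa [show s.im - (t + x) + x = s.im - t by ring] at this
        linarith
      have h9 : |(zz s).im| ≤ 1 / 2 := by
        rw [zz_im, abs_neg, abs_le]
        constructor <;> linarith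
      have h10 := vt_far hR0.le (show 0 ≤ R * b by positivity) (show 0 ≤ L - 1 by linarith) (t + x) h9 h8
      have h11 : ¬ (t + x - 1 / b ≤ s.im ∧ s.im ≤ t + x + 1 / b) := by
        rintro ⟨u, v⟩
        rw [zz_re] at h8
        have hbi : 1 / b ≤ 1 := by
          rw [div_le_one hb0]; exact hb1
        have : |s.im - (t + x)| ≤ 1 := abs_le.2 ⟨by linarith, by linarith⟩
        linarith
      rw [if_neg h11]
      have h12 := (abs_le.1 (Complex.abs_re_le_norm (vt (Bg R) (R * b) (t + x) (zz s)))).1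
      linarith
  have hsum := Finset.sum_le_sum hterm
  have hSt : (St (Bg R) (R * b) U1 U2 0 (t + x)).re =
      ∑ s ∈ Zf riemannZeta U1 U2, (mult riemannZeta s : ℝ) * (vt (Bg R) (R * b) (t + x) (zz s)).re := by
    unfold St
    rw [Complex.re_sum]
    refine Finset.sum_congr rfl fun s _ => ?_
    rw [Complex.ofReal_zero, mul_zero, zero_mul, Complex.exp_zero, mul_one,
      ← Complex.ofReal_natCast, Complex.re_ofReal_mul]
  rw [← hSt] at hsum
  have hexp : ∑ s ∈ Zf riemannZeta U1 U2, (mult riemannZeta s : ℝ) *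
      ((if t + x - 1 / b ≤ s.im ∧ s.im ≤ t + x + 1 / b then (1 / 6 : ℝ) else 0) -
        (if |s.im - t| ≤ L then δ else 0) - η) =
      1 / 6 * nz U1 U2 (t + x - 1 / b) (t + x + 1 / b) -
      δ * ∑ s ∈ (Zf riemannZeta U1 U2).filter (fun s => |s.im - t| ≤ L), (mult riemannZeta s : ℝ) -
      η * ∑ s ∈ Zf riemannZeta U1 U2, (mult riemannZeta s : ℝ) := by
    unfold nz
    rw [Finset.sum_filter, Finset.sum_filter, Finset.mul_sum, Finset.mul_sum, Finset.mul_sum,
      ← Finset.sum_sub_distrib, ← Finset.sum_sub_distrib]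
    refine Finset.sum_congr rfl fun s _ => ?_
    split_ifs <;> ring
  rw [hexp] at hsum
  have hN1 := hn U1 U2 hU1 t ht1 ht2
  have hN2 := ha U1 U2 hU1 hU2
  have h8 : δ * ∑ s ∈ (Zf riemannZeta U1 U2).filter (fun s => |s.im - t| ≤ L),
      (mult riemannZeta s : ℝ) ≤ 1 / 12 := by
    refine (mul_le_mul_of_nonneg_left hN1 hδ0).trans ?_
    exact h5
  have h9 : η * ∑ s ∈ Zf riemannZeta U1 U2, (mult riemannZeta s : ℝ) ≤ 1 / 12 := by
    refine (mul_le_mul_of_nonneg_left hN2 hη0).trans ?_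
    have h10 := h6 R (R * b) hR0.le hRL hRb16
    rw [hLd, Real.exp_log (by linarith)] at h10
    rw [hη, hLd]
    exact h10
  rw [hbinv]
  linarith

end

end Pool.Agent.Y624.LD
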